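import Pool.Graph.R_pool_sql_team_seeded_843ab51a.Results.MP_d8535d_co.ConstantLimit

/-!
Minimal overlapping permutations with a prescribed first entry: the truncated proportions
`g n m K` (no overlaps of length `2, …, K`) are the Bernstein coefficients of one polynomial.
-/

set_option autoImplicit false

namespace Pool.Agent.KS6_54.MO

open Finset Filter Topology Pool.Agent.V11170.SemiBaxter Pool.Agent.V11170.Tools
open Pool.Agent.Results.MP_d8535d_co.ConstantLimit

/-- Removing the letter in position `K`. -/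
theorem card_middle_gen {n K m : ℕ} (hK : 1 ≤ K) (hn : 2 * K ≤ n) (hm : m ≤ n) :
    (C (n + 1) m (GoodK (n + 1) K)).card =
      m * (C n (m - 1) (GoodK n K)).card + (n - m) * (C n m (GoodK n K)).card := by
  classical
  let c : Fin (n + 1) := ⟨K, by omega⟩
  let ρ : Equiv.Perm (Fin (n + 1)) := (finSuccEquiv' c).trans (finSuccEquiv' (Fin.last n)).symm
  have hρ : ∀ i : Fin n, ρ (c.succAbove i) = i.castSucc := by
    intro i
    show (finSuccEquiv' (Fin.last n)).symm (finSuccEquiv' c (c.succAbove i)) = i.castSucc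
    rw [finSuccEquiv'_succAbove, finSuccEquiv'_symm_some, Fin.succAbove_last]
  have hlow : ∀ (τ : Equiv.Perm (Fin (n + 1))) i, i < K → exP (τ * ρ) i = exP τ i := by
    intro τ i hi
    rw [exP_mul _ _ (by omega : i < n + 1)]
    have h1 : (⟨i, by omega⟩ : Fin (n + 1)) = c.succAbove ⟨i, by omega⟩ := by
      rw [Fin.succAbove_of_castSucc_lt]
      · rfl
      · exact hi
    rw [h1, hρ]
    rfl
  have hhigh : ∀ (τ : Equiv.Perm (Fin (n + 1))) i, K ≤ i → i < n →
      exP (τ * ρ) (i + 1) = exP τ i := by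
    intro τ i hi hin
    rw [exP_mul _ _ (by omega : i + 1 < n + 1)]
    have h1 : (⟨i + 1, by omega⟩ : Fin (n + 1)) = c.succAbove ⟨i, hin⟩ := by
      rw [Fin.succAbove_of_le_castSucc]
      · rfl
      · exact hi
    rw [h1, hρ]
    rfl
  unfold C
  rw [card_filter, card_filter, card_filter]
  rw [sum_mul_right (fun W => if W 0 = m ∧ GoodK (n + 1) K W then 1 else 0) ρ]
  have h1 : ∀ τ : Equiv.Perm (Fin (n + 1)),
      (exP (τ * ρ) 0 = m ∧ GoodK (n + 1) K (exP (τ * ρ))) ↔
        (exP τ 0 = m ∧ GoodK n K (exP τ)) := by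
    intro τ
    rw [hlow τ 0 (by omega)]
    have h2 : ∀ k, 2 ≤ k → k ≤ K → (Ov (n + 1) k (exP (τ * ρ)) ↔ Ov n k (exP τ)) := by
      intro k hk hkK
      have h3 : ∀ i j, i < k → j < k →
          ((exP (τ * ρ) i < exP (τ * ρ) j ↔
            exP (τ * ρ) (n + 1 - k + i) < exP (τ * ρ) (n + 1 - k + j)) ↔
          (exP τ i < exP τ j ↔ exP τ (n - k + i) < exP τ (n - k + j))) := by
        intro i j hi hj
        rw [hlow τ i (by omega), hlow τ j (by omega),
          show n + 1 - k + i = (n - k + i) + 1 by omega,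
          show n + 1 - k + j = (n - k + j) + 1 by omega,
          hhigh τ (n - k + i) (by omega) (by omega), hhigh τ (n - k + j) (by omega) (by omega)]
      constructor
      · intro h i j hi hj
        exact (h3 i j hi hj).mp (h i j hi hj)
      · intro h i j hi hj
        exact (h3 i j hi hj).mpr (h i j hi hj)
    constructor
    · rintro ⟨h3, h4⟩
      exact ⟨h3, fun k hk hkK h5 => h4 k hk hkK ((h2 k hk hkK).mpr h5)⟩
    · rintro ⟨h3, h4⟩
      exact ⟨h3, fun k hk hkK h5 => h4 k hk hkK ((h2 k hk hkK).mp h5)⟩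
  simp only [h1]
  rw [sum_perm_succ n (fun W => if W 0 = m ∧ GoodK n K W then 1 else 0), mul_sum, mul_sum,
    ← sum_add_distrib]
  apply sum_congr rfl
  intro σ _
  have h2 : ∀ v, (if ins n v (exP σ) 0 = m ∧ GoodK n K (ins n v (exP σ)) then 1 else 0) =
      (if v < m then (if exP σ 0 = m - 1 ∧ GoodK n K (exP σ) then 1 else 0) else 0) +
      (if m < v then (if exP σ 0 = m ∧ GoodK n K (exP σ) then 1 else 0) else 0) := by
    intro v
    have h3 : GoodK n K (ins n v (exP σ)) ↔ GoodK n K (exP σ) := by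
      have h4 : ∀ k, 2 ≤ k → k ≤ K → (Ov n k (ins n v (exP σ)) ↔ Ov n k (exP σ)) := by
        intro k hk hkK
        have h5 : ∀ i j, i < n → j < n →
            (ins n v (exP σ) i < ins n v (exP σ) j ↔ exP σ i < exP σ j) := by
          intro i j hi hj
          rw [ins_lt hi, ins_lt hj]
          split_ifs <;> omega
        unfold Ov
        constructor
        · intro h i j hi hj
          rw [← h5 i j (by omega) (by omega), h i j hi hj, h5 _ _ (by omega) (by omega)]
        · intro h i j hi hj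
          rw [h5 i j (by omega) (by omega), h i j hi hj, h5 _ _ (by omega) (by omega)]
      constructor
      · exact fun h k hk hkK h5 => h k hk hkK ((h4 k hk hkK).mpr h5)
      · exact fun h k hk hkK h5 => h k hk hkK ((h4 k hk hkK).mp h5)
    have h6 : ins n v (exP σ) 0 = m ↔ (v < m ∧ exP σ 0 = m - 1) ∨ (m < v ∧ exP σ 0 = m) := by
      rw [ins_lt (by omega)]
      split_ifs <;> omega
    simp only [h3, h6]
    by_cases hG : GoodK n K (exP σ)
    · rcases lt_trichotomy v m with h | h | h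
      · by_cases h7 : exP σ 0 = m - 1
        · simp [hG, h, h7, h.not_gt]
        · simp [hG, h, h7, h.not_gt]
      · subst h
        simp
      · by_cases h7 : exP σ 0 = m
        · simp [hG, h, h7, h.not_gt]
        · simp [hG, h, h7, h.not_gt]
    · simp [hG]
  simp only [h2]
  generalize (if exP σ 0 = m - 1 ∧ GoodK n K (exP σ) then 1 else 0) = A
  generalize (if exP σ 0 = m ∧ GoodK n K (exP σ) then 1 else 0) = B
  rw [sum_add_distrib, ← sum_filter, ← sum_filter, sum_const, sum_const, smul_eq_mul, smul_eq_mul]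
  have e1 : (filter (fun v => v < m) (range (n + 1))).card = m := by
    have : filter (fun v => v < m) (range (n + 1)) = range m := by
      ext v
      simp only [mem_filter, mem_range]
      omega
    rw [this, card_range]
  have e2 : (filter (fun v => m < v) (range (n + 1))).card = n - m := by
    have : filter (fun v => m < v) (range (n + 1)) = Ioc m n := by
      ext v
      simp only [mem_filter, mem_range, mem_Ioc]
      omega
    rw [this, Nat.card_Ioc]
  rw [e1, e2]

/-- `G N j K` is the truncated proportion in length `N + 1`. -/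
theorem g_rec {N K j : ℕ} (hK : 1 ≤ K) (hN : 2 * K ≤ N + 1) (hj : j ≤ N + 1) :
    ((N : ℝ) + 1) * g (N + 2) j K =
      j * g (N + 1) (j - 1) K + ((N : ℝ) + 1 - j) * g (N + 1) j K := by
  unfold g
  have h := card_middle_gen (n := N + 1) (m := j) hK hN hj
  have h1 : (((C (N + 2) j (GoodK (N + 2) K)).card : ℕ) : ℝ) =
      j * ((C (N + 1) (j - 1) (GoodK (N + 1) K)).card : ℝ) +
        ((N : ℝ) + 1 - j) * ((C (N + 1) j (GoodK (N + 1) K)).card : ℝ) := by
    rw [show N + 2 = N + 1 + 1 from rfl, h]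
    push_cast [Nat.cast_sub hj]
    ring
  rw [h1, show N + 2 - 1 = N + 1 from rfl, show N + 1 - 1 = N from rfl, Nat.factorial_succ]
  have h2 := fac_pos N
  have h3 : (0 : ℝ) < (N : ℝ) + 1 := by positivity
  push_cast
  field_simp

/-- The Bernstein basis. -/
noncomputable def bb (N j : ℕ) (x : ℝ) : ℝ := (N.choose j : ℝ) * x ^ j * (1 - x) ^ (N - j)

theorem bb_nonneg {N j : ℕ} {x : ℝ} (h0 : 0 ≤ x) (h1 : x ≤ 1) : 0 ≤ bb N j x := by
  unfold bb
  have : 0 ≤ 1 - x := by linarith
  positivity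

theorem bb_eq (N j : ℕ) (x : ℝ) : bb N j x = (bernsteinPolynomial ℝ N j).eval x := by
  unfold bb bernsteinPolynomial
  simp

theorem sum_bb (N : ℕ) (x : ℝ) : ∑ j ∈ range (N + 1), bb N j x = 1 := by
  have h := congrArg (fun q => Polynomial.eval x q) (bernsteinPolynomial.sum ℝ N)
  simp only [Polynomial.eval_finsetSum, Polynomial.eval_one] at h
  rw [← h]
  exact sum_congr rfl fun j _ => bb_eq N j x

theorem var_bb (N : ℕ) (x : ℝ) :
    ∑ j ∈ range (N + 1), ((N : ℝ) * x - j) ^ 2 * bb N j x = N * x * (1 - x) := by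
  have h := congrArg (fun q => Polynomial.eval x q) (bernsteinPolynomial.variance ℝ N)
  simp only [Polynomial.eval_finsetSum, Polynomial.eval_mul, Polynomial.eval_pow,
    Polynomial.eval_sub, Polynomial.eval_natCast, Polynomial.eval_one, Polynomial.eval_X,
    nsmul_eq_mul] at h
  rw [← h]
  exact sum_congr rfl fun j _ => by rw [bb_eq]

theorem bb_up {N j : ℕ} (hj : j ≤ N) (x : ℝ) :
    ((N : ℝ) + 1 - j) * bb (N + 1) j x = ((N : ℝ) + 1) * ((1 - x) * bb N j x) := by
  unfold bb
  have h : ((N + 1).choose j : ℝ) * ((N : ℝ) + 1 - j) = (N + 1 : ℝ) * (N.choose j : ℝ) := by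
    have h1 := Nat.add_one_mul_choose_eq N j
    have h2 := Nat.choose_succ_right_eq (N + 1) j
    have h3 : (N + 1).choose j * (N + 1 - j) = (N + 1) * N.choose j := by
      rw [← h2, ← h1]
    have h4 : ((((N + 1).choose j * (N + 1 - j) : ℕ)) : ℝ) = (((N + 1) * N.choose j : ℕ) : ℝ) := by
      rw [h3]
    rw [Nat.cast_mul, Nat.cast_sub (by omega)] at h4
    push_cast at h4
    exact h4
  rw [show N + 1 - j = (N - j) + 1 by omega, pow_succ]
  linear_combination (x ^ j * ((1 - x) ^ (N - j) * (1 - x))) * h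

theorem bb_up' (N j : ℕ) (x : ℝ) :
    ((j : ℝ) + 1) * bb (N + 1) (j + 1) x = ((N : ℝ) + 1) * (x * bb N j x) := by
  unfold bb
  have h : ((N + 1).choose (j + 1) : ℝ) * ((j : ℝ) + 1) = (N + 1 : ℝ) * (N.choose j : ℝ) := by
    have h1 := Nat.add_one_mul_choose_eq N j
    have h4 : ((((N + 1) * N.choose j : ℕ)) : ℝ) = (((N + 1).choose (j + 1) * (j + 1) : ℕ) : ℝ) := by
      rw [h1]
    push_cast at h4
    linarith
  rw [show N + 1 - (j + 1) = N - j by omega, pow_succ]
  linear_combination (x ^ j * x * ((1 - x) ^ (N - j))) * h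

/-- The Bernstein form of degree `N`. -/
noncomputable def BP (N K : ℕ) (x : ℝ) : ℝ := ∑ j ∈ range (N + 1), g (N + 1) j K * bb N j x

theorem BP_succ {N K : ℕ} (hK : 1 ≤ K) (hN : 2 * K ≤ N + 1) (x : ℝ) :
    BP (N + 1) K x = BP N K x := by
  have hN0 : (0 : ℝ) < (N : ℝ) + 1 := by positivity
  have key : ((N : ℝ) + 1) * BP (N + 1) K x = ((N : ℝ) + 1) * BP N K x := by
    unfold BP
    rw [mul_sum]
    have h1 : ∀ j ∈ range (N + 1 + 1), ((N : ℝ) + 1) * (g (N + 1 + 1) j K * bb (N + 1) j x) =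
        (j : ℝ) * g (N + 1) (j - 1) K * bb (N + 1) j x +
          ((N : ℝ) + 1 - j) * g (N + 1) j K * bb (N + 1) j x := by
      intro j hj
      rw [mem_range] at hj
      have h2 := g_rec (K := K) (j := j) hK hN (by omega)
      rw [show N + 1 + 1 = N + 2 from rfl]
      linear_combination (bb (N + 1) j x) * h2
    have e1 : ∑ j ∈ range (N + 1 + 1), (j : ℝ) * g (N + 1) (j - 1) K * bb (N + 1) j x =
        ∑ j ∈ range (N + 1), ((j + 1 : ℕ) : ℝ) * g (N + 1) j K * bb (N + 1) (j + 1) x := by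
      rw [sum_range_succ']
      simp
    have e2 : ∑ j ∈ range (N + 1 + 1), ((N : ℝ) + 1 - j) * g (N + 1) j K * bb (N + 1) j x =
        ∑ j ∈ range (N + 1), ((N : ℝ) + 1 - j) * g (N + 1) j K * bb (N + 1) j x := by
      rw [sum_range_succ]
      simp
    rw [sum_congr rfl h1, sum_add_distrib, e1, e2, mul_sum, ← sum_add_distrib]
    apply sum_congr rfl
    intro j hj
    rw [mem_range] at hj
    have h4 := bb_up' N j x
    have h5 := bb_up (show j ≤ N by omega) x
    push_cast
    linear_combination (g (N + 1) j K) * h4 + (g (N + 1) j K) * h5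
  exact mul_left_cancel₀ hN0.ne' key

/-- The limit polynomial of the truncated proportions. -/
noncomputable def PK (K : ℕ) (x : ℝ) : ℝ := BP (2 * K - 1) K x

theorem BP_eq {N K : ℕ} (hK : 1 ≤ K) (hN : 2 * K ≤ N + 1) (x : ℝ) : BP N K x = PK K x := by
  obtain ⟨d, rfl⟩ : ∃ d, N = 2 * K - 1 + d := ⟨N - (2 * K - 1), by omega⟩
  induction d with
  | zero => rfl
  | succ d ih =>
    rw [← add_assoc, BP_succ hK (by omega), ih (by omega)]

theorem g_lip_one {N a K : ℕ} (ha : a + 1 ≤ N) (hK : K ≤ N) :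
    |g (N + 1) a K - g (N + 1) (a + 1) K| ≤ K / N := by
  obtain ⟨n, rfl⟩ : ∃ n, N = n + 1 := ⟨N - 1, by omega⟩
  have h1 := g_swap (n := n) (a := a) (b := a + 1) (K := K) (by omega) (by omega) (Or.inl rfl) hK
  have h2 := g_swap (n := n) (a := a + 1) (b := a) (K := K) (by omega) (by omega) (Or.inr rfl) hK
  rw [abs_le]
  push_cast
  constructor
  · linarith
  · linarith

theorem g_lip_add {N a K : ℕ} (hK : K ≤ N) : ∀ d, a + d ≤ N →
    |g (N + 1) a K - g (N + 1) (a + d) K| ≤ K * d / N := by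
  intro d
  induction d with
  | zero =>
    intro _
    simp
  | succ d ih =>
    intro h
    have h1 := ih (by omega)
    have h2 := g_lip_one (a := a + d) (K := K) (show a + d + 1 ≤ N by omega) hK
    have h3 := abs_sub_le (g (N + 1) a K) (g (N + 1) (a + d) K) (g (N + 1) (a + (d + 1)) K)
    rw [← add_assoc] at h3 ⊢
    refine le_trans h3 (le_trans (add_le_add h1 h2) (le_of_eq ?_))
    push_cast
    ring

theorem g_lip {N a b K : ℕ} (hK : K ≤ N) (ha : a ≤ N) (hb : b ≤ N) :
    |g (N + 1) a K - g (N + 1) b K| ≤ K * |(a : ℝ) - b| / N := by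
  rcases le_total a b with h | h
  · obtain ⟨d, rfl⟩ := Nat.exists_eq_add_of_le h
    have h1 := g_lip_add (a := a) hK d hb
    have h2 : |(a : ℝ) - ((a + d : ℕ) : ℝ)| = d := by
      push_cast
      rw [show (a : ℝ) - (a + d) = -d by ring, abs_neg, abs_of_nonneg (Nat.cast_nonneg d)]
    rw [h2]
    exact h1
  · obtain ⟨d, rfl⟩ := Nat.exists_eq_add_of_le h
    have h1 := g_lip_add (a := b) hK d ha
    have h2 : |((b + d : ℕ) : ℝ) - (b : ℝ)| = d := by
      push_cast
      rw [show (b : ℝ) + d - b = d by ring, abs_of_nonneg (Nat.cast_nonneg d)]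
    rw [h2, abs_sub_comm]
    exact h1

/-- The truncated proportions are close to the limit polynomial. -/
theorem g_near {N m K : ℕ} (hK : 1 ≤ K) (hN : 2 * K ≤ N + 1) (hN1 : 1 ≤ N) (hm : m ≤ N) :
    |g (N + 1) m K - PK K ((m : ℝ) / N)| ≤ K / √(N : ℝ) := by
  have hNr : (0 : ℝ) < (N : ℝ) := by exact_mod_cast hN1
  have hs : 0 < √(N : ℝ) := Real.sqrt_pos.mpr hNr
  have hss : √(N : ℝ) * √(N : ℝ) = N := Real.mul_self_sqrt hNr.le
  set x : ℝ := (m : ℝ) / N with hx
  have hx0 : 0 ≤ x := by positivity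
  have hx1 : x ≤ 1 := by
    rw [hx, div_le_one hNr]
    exact_mod_cast hm
  have hNx : (N : ℝ) * x = m := by
    rw [hx]
    field_simp
  have h1 : g (N + 1) m K - PK K x =
      ∑ j ∈ range (N + 1), (g (N + 1) m K - g (N + 1) j K) * bb N j x := by
    rw [← BP_eq hK hN]
    unfold BP
    have e1 : g (N + 1) m K = ∑ j ∈ range (N + 1), g (N + 1) m K * bb N j x := by
      rw [← mul_sum, sum_bb, mul_one]
    calc g (N + 1) m K - ∑ j ∈ range (N + 1), g (N + 1) j K * bb N j x
        = (∑ j ∈ range (N + 1), g (N + 1) m K * bb N j x) -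
          ∑ j ∈ range (N + 1), g (N + 1) j K * bb N j x := by rw [← e1]
      _ = _ := by
          rw [← sum_sub_distrib]
          exact sum_congr rfl fun j _ => by ring
  rw [h1]
  refine le_trans (abs_sum_le_sum_abs _ _) ?_
  have h2 : ∀ j ∈ range (N + 1), |(g (N + 1) m K - g (N + 1) j K) * bb N j x| ≤
      (K / N) * ((((N : ℝ) * x - j) ^ 2 * bb N j x) / (2 * √(N : ℝ)) + √(N : ℝ) / 2 * bb N j x) := by
    intro j hj
    rw [mem_range] at hj
    have hb := bb_nonneg (N := N) (j := j) hx0 hx1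
    rw [abs_mul, abs_of_nonneg hb]
    have h3 := g_lip (a := m) (b := j) (K := K) (show K ≤ N by omega) hm (by omega)
    have h4 : |(m : ℝ) - j| ≤ ((m : ℝ) - j) ^ 2 / (2 * √(N : ℝ)) + √(N : ℝ) / 2 := by
      rw [div_add_div _ _ (by positivity) (by positivity), le_div_iff₀ (by positivity)]
      nlinarith [sq_nonneg (|(m : ℝ) - j| - √(N : ℝ)), sq_abs ((m : ℝ) - j)]
    calc |g (N + 1) m K - g (N + 1) j K| * bb N j x ≤ (K * |(m : ℝ) - j| / N) * bb N j x :=
          mul_le_mul_of_nonneg_right h3 hb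
      _ = (K / N) * (|(m : ℝ) - j| * bb N j x) := by ring
      _ ≤ (K / N) * ((((m : ℝ) - j) ^ 2 / (2 * √(N : ℝ)) + √(N : ℝ) / 2) * bb N j x) := by
          apply mul_le_mul_of_nonneg_left _ (by positivity)
          exact mul_le_mul_of_nonneg_right h4 hb
      _ = _ := by
          rw [hNx]
          ring
  refine le_trans (sum_le_sum h2) ?_
  rw [← mul_sum, sum_add_distrib, ← sum_div, ← mul_sum, var_bb, sum_bb]
  have h5 : (N : ℝ) * x * (1 - x) ≤ N := by nlinarith
  have h6 : (N : ℝ) * x * (1 - x) / (2 * √(N : ℝ)) ≤ √(N : ℝ) / 2 := by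
    rw [div_le_div_iff₀ (by positivity) (by positivity)]
    nlinarith
  calc (K : ℝ) / N * (N * x * (1 - x) / (2 * √(N : ℝ)) + √(N : ℝ) / 2 * 1)
      ≤ K / N * (√(N : ℝ) / 2 + √(N : ℝ) / 2 * 1) := by
        apply mul_le_mul_of_nonneg_left _ (by positivity)
        linarith
    _ = K / √(N : ℝ) := by
        field_simp
        nlinarith

end Pool.Agent.KS6_54.MO
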