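import Pool.Agent.KS6_54.MO.A

/-!
Minimal overlapping permutations with a prescribed first entry: comparison of the limit polynomials
for different truncations, and the limit function.
-/

set_option autoImplicit false

namespace Pool.Agent.KS6_54.MO

open Finset Filter Topology Pool.Agent.V11170.SemiBaxter Pool.Agent.V11170.Tools
open Pool.Agent.Results.MP_d8535d_co.ConstantLimit

/-- At most half of the permutations with an overlap of length `k ≥ 4` have no overlap of length
two. -/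
theorem card_ov_half {n k m : ℕ} (hk : 4 ≤ k) (hn : 2 * k ≤ n) :
    2 * (C n m (fun W => Ov n k W ∧ ¬ Ov n 2 W)).card ≤ (C n m (Ov n k)).card := by
  classical
  let s : Equiv.Perm (Fin n) := Equiv.swap ⟨k - 2, by omega⟩ ⟨k - 1, by omega⟩ *
    Equiv.swap ⟨n - 2, by omega⟩ ⟨n - 1, by omega⟩
  let sw : ℕ → ℕ := fun i => if i = k - 2 then k - 1 else if i = k - 1 then k - 2 else
    if i = n - 2 then n - 1 else if i = n - 1 then n - 2 else i
  have hsw : ∀ i, i < n → sw i < n := by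
    intro i hi
    simp only [sw]
    split_ifs <;> omega
  have hs : ∀ (i : ℕ) (hi : i < n), ((s ⟨i, hi⟩ : Fin n) : ℕ) = sw i := by
    intro i hi
    show ((Equiv.swap (⟨k - 2, by omega⟩ : Fin n) ⟨k - 1, by omega⟩
      (Equiv.swap (⟨n - 2, by omega⟩ : Fin n) ⟨n - 1, by omega⟩ ⟨i, hi⟩) : Fin n) : ℕ) = _
    simp only [Equiv.swap_apply_def, sw, Fin.ext_iff]
    split_ifs <;> simp_all <;> omega
  have hex : ∀ (τ : Equiv.Perm (Fin n)) i, i < n → exP (τ * s) i = exP τ (sw i) := by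
    intro τ i hi
    rw [exP_mul _ _ hi, hs i hi]
  have hlow : ∀ i, i < k → sw i < k := by
    intro i hi
    simp only [sw]
    split_ifs <;> omega
  have hhigh : ∀ i, i < k → sw (n - k + i) = n - k + sw i := by
    intro i hi
    simp only [sw]
    split_ifs <;> omega
  have hsub : (C n m (fun W => Ov n k W ∧ ¬ Ov n 2 W)).image (fun τ => τ * s) ⊆
      C n m (fun W => Ov n k W ∧ Ov n 2 W) := by
    intro ρ hρ
    rw [mem_image] at hρ
    obtain ⟨τ, hτ, rfl⟩ := hρ
    rw [mem_C] at hτ ⊢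
    obtain ⟨h0, h1, h2⟩ := hτ
    refine ⟨?_, ?_, ?_⟩
    · rw [hex τ 0 (by omega)]
      have : sw 0 = 0 := by
        simp only [sw]
        split_ifs <;> omega
      rw [this]
      exact h0
    · intro i j hi hj
      rw [hex τ i (by omega), hex τ j (by omega), hex τ _ (by omega), hex τ _ (by omega),
        hhigh i hi, hhigh j hj]
      exact h1 _ _ (hlow i hi) (hlow j hj)
    · have e0 : sw 0 = 0 := by
        simp only [sw]
        split_ifs <;> omega
      have e1 : sw 1 = 1 := by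
        simp only [sw]
        split_ifs <;> omega
      have e2 : sw (n - 2 + 0) = n - 1 := by
        simp only [sw]
        split_ifs <;> omega
      have e3 : sw (n - 2 + 1) = n - 2 := by
        simp only [sw]
        split_ifs <;> omega
      have d1 : exP τ 0 ≠ exP τ 1 := exP_inj τ (by omega) (by omega) (by omega)
      have d2 : exP τ (n - 2) ≠ exP τ (n - 1) := exP_inj τ (by omega) (by omega) (by omega)
      have h3 : ¬ (exP τ 0 < exP τ 1 ↔ exP τ (n - 2) < exP τ (n - 1)) := by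
        intro h4
        apply h2
        intro i j hi hj
        have hi' : i = 0 ∨ i = 1 := by omega
        have hj' : j = 0 ∨ j = 1 := by omega
        rcases hi' with rfl | rfl <;> rcases hj' with rfl | rfl
        · simp
        · rw [show n - 2 + 0 = n - 2 by omega, show n - 2 + 1 = n - 1 by omega]
          exact h4
        · rw [show n - 2 + 0 = n - 2 by omega, show n - 2 + 1 = n - 1 by omega]
          omega
        · simp
      intro i j hi hj
      rw [hex τ i (by omega), hex τ j (by omega), hex τ _ (by omega), hex τ _ (by omega)]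
      have hi' : i = 0 ∨ i = 1 := by omega
      have hj' : j = 0 ∨ j = 1 := by omega
      rcases hi' with rfl | rfl <;> rcases hj' with rfl | rfl
      · simp
      · rw [e0, e1, e2, e3]
        omega
      · rw [e0, e1, e2, e3]
        omega
      · simp
  have hcard : (C n m (fun W => Ov n k W ∧ ¬ Ov n 2 W)).card ≤
      (C n m (fun W => Ov n k W ∧ Ov n 2 W)).card := by
    rw [← card_image_of_injective _ (mul_left_injective s)]
    exact card_le_card hsub
  have hdisj : Disjoint (C n m (fun W => Ov n k W ∧ ¬ Ov n 2 W))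
      (C n m (fun W => Ov n k W ∧ Ov n 2 W)) := by
    rw [Finset.disjoint_left]
    intro τ h1 h2
    rw [mem_C] at h1 h2
    exact h1.2.2 h2.2.2
  have hun : C n m (fun W => Ov n k W ∧ ¬ Ov n 2 W) ∪ C n m (fun W => Ov n k W ∧ Ov n 2 W) ⊆
      C n m (Ov n k) := by
    intro τ hτ
    rw [mem_union, mem_C, mem_C] at hτ
    rw [mem_C]
    rcases hτ with h | h
    · exact ⟨h.1, h.2.1⟩
    · exact ⟨h.1, h.2.1⟩
  have := card_le_card hun
  rw [card_union_of_disjoint hdisj] at this
  omega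

theorem card_good_mid {n m K K' : ℕ} (hK : 2 ≤ K) : (C n m (GoodK n K)).card ≤
    (C n m (GoodK n K')).card +
      ∑ k ∈ Ioc K K', (C n m (fun W => Ov n k W ∧ ¬ Ov n 2 W)).card := by
  classical
  have hsub : C n m (GoodK n K) ⊆ C n m (GoodK n K') ∪
      (Ioc K K').biUnion (fun k => C n m (fun W => Ov n k W ∧ ¬ Ov n 2 W)) := by
    intro τ hτ
    rw [mem_C] at hτ
    rw [mem_union, mem_biUnion]
    by_cases h : ∃ k, K < k ∧ k ≤ K' ∧ Ov n k (exP τ)
    · obtain ⟨k, h1, h2, h3⟩ := h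
      right
      exact ⟨k, mem_Ioc.mpr ⟨h1, h2⟩, mem_C.mpr ⟨hτ.1, h3, hτ.2 2 le_rfl hK⟩⟩
    · left
      rw [mem_C]
      refine ⟨hτ.1, fun k hk hkn ho => ?_⟩
      by_cases h1 : k ≤ K
      · exact hτ.2 k hk h1 ho
      · exact h ⟨k, by omega, hkn, ho⟩
  exact le_trans (card_le_card hsub) (le_trans (card_union_le _ _)
    (Nat.add_le_add_left card_biUnion_le _))

theorem g_anti {n m K K' : ℕ} (h : K ≤ K') : g n m K' ≤ g n m K := by
  unfold g
  apply div_le_div_of_nonneg_right _ (fac_pos _).le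
  have : (C n m (GoodK n K')).card ≤ (C n m (GoodK n K)).card := by
    apply card_le_card
    intro τ hτ
    rw [mem_C] at hτ ⊢
    exact ⟨hτ.1, fun k hk hkK => hτ.2 k hk (by omega)⟩
  exact_mod_cast this

theorem g_mid {n m K K' : ℕ} (hK : 3 ≤ K) (hK' : 3 * K' ≤ n) (hm : m < n) :
    g n m K ≤ g n m K' + ∑ k ∈ Ioc K K', 1 / (2 * (k.factorial : ℝ)) := by
  unfold g
  rw [div_add' _ _ _ (fac_pos _).ne']
  apply div_le_div_of_nonneg_right _ (fac_pos _).le
  have h1 : ((C n m (GoodK n K)).card : ℝ) ≤ ((C n m (GoodK n K')).card : ℝ) +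
      ∑ k ∈ Ioc K K', ((C n m (fun W => Ov n k W ∧ ¬ Ov n 2 W)).card : ℝ) := by
    exact_mod_cast card_good_mid (by omega)
  refine le_trans h1 (add_le_add le_rfl ?_)
  rw [sum_mul]
  apply sum_le_sum
  intro k hk
  rw [mem_Ioc] at hk
  have h2 := card_ov (n := n) (m := m) (k := k) (by omega) hm
  rw [min_eq_left (by omega)] at h2
  have h3 := card_ov_half (n := n) (m := m) (k := k) (by omega) (by omega)
  have h4 : 2 * (C n m (fun W => Ov n k W ∧ ¬ Ov n 2 W)).card * k.factorial ≤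
      (n - 1).factorial := le_trans (Nat.mul_le_mul_right _ h3) h2
  have h5 : (2 : ℝ) * ((C n m (fun W => Ov n k W ∧ ¬ Ov n 2 W)).card : ℝ) * (k.factorial : ℝ) ≤
      ((n - 1).factorial : ℝ) := by exact_mod_cast h4
  have h6 := fac_pos k
  rw [div_mul_eq_mul_div, one_mul, le_div_iff₀ (by positivity)]
  linarith

theorem g_nonneg (n m K : ℕ) : 0 ≤ g n m K := by
  unfold g
  positivity

/-- Comparison of the limit polynomials. -/
theorem PK_anti {K K' : ℕ} (hK : 1 ≤ K) (h : K ≤ K') {x : ℝ} (h0 : 0 ≤ x) (h1 : x ≤ 1) :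
    PK K' x ≤ PK K x := by
  rw [← BP_eq (N := 2 * K' - 1) hK (by omega), ← BP_eq (N := 2 * K' - 1) (by omega) (by omega)]
  unfold BP
  apply sum_le_sum
  intro j _
  exact mul_le_mul_of_nonneg_right (g_anti h) (bb_nonneg h0 h1)

theorem PK_mid {K K' : ℕ} (hK : 3 ≤ K) (h : K ≤ K') {x : ℝ} (h0 : 0 ≤ x) (h1 : x ≤ 1) :
    PK K x ≤ PK K' x + ∑ k ∈ Ioc K K', 1 / (2 * (k.factorial : ℝ)) := by
  rw [← BP_eq (N := 3 * K' - 1) (by omega) (by omega),
    ← BP_eq (N := 3 * K' - 1) (by omega) (by omega)]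
  unfold BP
  set S : ℝ := ∑ k ∈ Ioc K K', 1 / (2 * (k.factorial : ℝ)) with hS
  have h2 : S = ∑ j ∈ range (3 * K' - 1 + 1), S * bb (3 * K' - 1) j x := by
    rw [← mul_sum, sum_bb, mul_one]
  rw [h2, ← sum_add_distrib]
  apply sum_le_sum
  intro j hj
  rw [mem_range] at hj
  rw [← add_mul]
  exact mul_le_mul_of_nonneg_right (g_mid hK (by omega) (by omega)) (bb_nonneg h0 h1)

theorem PK_nonneg (K : ℕ) {x : ℝ} (h0 : 0 ≤ x) (h1 : x ≤ 1) : 0 ≤ PK K x := by
  unfold PK BP
  exact sum_nonneg fun j _ => mul_nonneg (g_nonneg _ _ _) (bb_nonneg h0 h1)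

/-- Half of the tail of the series of the inverse factorials. -/
noncomputable def TT (K : ℕ) : ℝ :=
  ((∑' k : ℕ, 1 / (k.factorial : ℝ)) - ∑ k ∈ range (K + 1), 1 / (k.factorial : ℝ)) / 2

theorem sum_le_TT (K K' : ℕ) : ∑ k ∈ Ioc K K', 1 / (2 * (k.factorial : ℝ)) ≤ TT K := by
  unfold TT
  have h2 : Disjoint (Ioc K K') (range (K + 1)) := by
    rw [Finset.disjoint_left]
    intro x hx hx'
    rw [mem_Ioc] at hx
    rw [mem_range] at hx'
    omega
  have h3 := summable_inv_fac.sum_le_tsum (Ioc K K' ∪ range (K + 1))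
    (fun k _ => (one_div_pos.mpr (fac_pos k)).le)
  rw [sum_union h2] at h3
  have h4 : ∑ k ∈ Ioc K K', 1 / (2 * (k.factorial : ℝ)) =
      (∑ k ∈ Ioc K K', 1 / (k.factorial : ℝ)) / 2 := by
    rw [sum_div]
    apply sum_congr rfl
    intro k _
    have := fac_pos k
    field_simp
  rw [h4]
  linarith

theorem TT_nonneg (K : ℕ) : 0 ≤ TT K := by
  have h := sum_le_TT K K
  rw [Ioc_self, sum_empty] at h
  exact h

theorem tendsto_TT : Tendsto TT atTop (𝓝 0) := by
  have h1 := (summable_inv_fac.hasSum.tendsto_sum_nat.const_sub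
    (∑' k : ℕ, 1 / (k.factorial : ℝ)))
  rw [sub_self] at h1
  have h2 := (h1.comp (tendsto_add_atTop_nat 1)).div_const 2
  rw [zero_div] at h2
  exact h2

/-- The limit function. -/
noncomputable def LL (x : ℝ) : ℝ := ⨅ K : ℕ, PK (K + 3) x

theorem LL_le {K : ℕ} (hK : 3 ≤ K) {x : ℝ} (h0 : 0 ≤ x) (h1 : x ≤ 1) : LL x ≤ PK K x := by
  obtain ⟨d, rfl⟩ : ∃ d, K = d + 3 := ⟨K - 3, by omega⟩
  unfold LL
  refine ciInf_le ⟨0, ?_⟩ d
  rintro _ ⟨K, rfl⟩
  exact PK_nonneg _ h0 h1

theorem le_LL {K : ℕ} (hK : 3 ≤ K) {x : ℝ} (h0 : 0 ≤ x) (h1 : x ≤ 1) :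
    PK K x ≤ LL x + TT K := by
  have : PK K x - TT K ≤ LL x := by
    unfold LL
    refine le_ciInf fun K' => ?_
    rcases le_total K (K' + 3) with h | h
    · have h2 := PK_mid hK h h0 h1
      have h3 := sum_le_TT K (K' + 3)
      linarith
    · have h2 := PK_anti (K := K' + 3) (by omega) h h0 h1
      have h3 := TT_nonneg K
      linarith
  linarith

theorem continuous_PK (K : ℕ) : Continuous (PK K) := by
  unfold PK BP bb
  fun_prop

theorem continuousOn_LL : ContinuousOn LL (Set.Icc 0 1) := by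
  have h : TendstoUniformlyOn (fun K x => PK (K + 3) x) LL atTop (Set.Icc (0 : ℝ) 1) := by
    rw [Metric.tendstoUniformlyOn_iff]
    intro ε hε
    have h1 := ((tendsto_TT.comp (tendsto_add_atTop_nat 3)).eventually_lt_const hε)
    filter_upwards [h1] with K hK x hx
    have h2 := LL_le (K := K + 3) (by omega) hx.1 hx.2
    have h3 := le_LL (K := K + 3) (by omega) hx.1 hx.2
    rw [Real.dist_eq, abs_lt]
    simp only [Function.comp] at hK
    constructor <;> linarith
  exact h.continuousOn (Filter.Frequently.of_forall fun K => (continuous_PK _).continuousOn)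

/-- The explicit error bound. -/
theorem p_near {n m K : ℕ} (hK : 3 ≤ K) (hn : 2 * K ≤ n) (hm : m < n) :
    |p n (m + 1) - LL ((m : ℝ) / ((n - 1 : ℕ) : ℝ))| ≤
      3 * TT K + K / √((n - 1 : ℕ) : ℝ) + n * (1 / ((n / 3).factorial : ℝ)) := by
  obtain ⟨N, rfl⟩ : ∃ N, n = N + 1 := ⟨n - 1, by omega⟩
  rw [show N + 1 - 1 = N from rfl]
  have hNr : (0 : ℝ) < (N : ℝ) := by
    have : 0 < N := by omega
    exact_mod_cast this
  have hx0 : 0 ≤ (m : ℝ) / N := by positivity
  have hx1 : (m : ℝ) / N ≤ 1 := by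
    rw [div_le_one hNr]
    exact_mod_cast (show m ≤ N by omega)
  rw [p_eq (by omega)]
  have h1 := g_le (n := N + 1) (m := m) (K := K) hm
  have h2 := g_ge (n := N + 1) (m := m) (K := K) (by omega)
  have h3 := e_le (N + 1) K
  have h4 := g_near (N := N) (m := m) (K := K) (by omega) hn (by omega) (by omega)
  have h5 := LL_le hK hx0 hx1
  have h6 := le_LL hK hx0 hx1
  have h7 : ((∑' k : ℕ, 1 / (k.factorial : ℝ)) - ∑ k ∈ range (K + 1), 1 / (k.factorial : ℝ)) =
      2 * TT K := by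
    unfold TT
    ring
  rw [h7] at h3
  rw [abs_le] at h4 ⊢
  have h8 := TT_nonneg K
  have h9 : (0 : ℝ) ≤ ((N + 1 : ℕ) : ℝ) * (1 / (((N + 1) / 3).factorial : ℝ)) := by
    have := fac_pos ((N + 1) / 3)
    positivity
  constructor
  · linarith [h4.1]
  · linarith [h4.2]

/-- Uniform convergence. -/
theorem p_unif (ε : ℝ) (hε : 0 < ε) : ∃ N : ℕ, ∀ n, N ≤ n → ∀ m, m < n →
    |p n (m + 1) - LL ((m : ℝ) / ((n - 1 : ℕ) : ℝ))| < ε := by
  have h1 := tendsto_TT.eventually_lt_const (show (0 : ℝ) < ε / 9 by positivity)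
  obtain ⟨K, hK, hK3⟩ := (h1.and (eventually_ge_atTop 3)).exists
  have h2 : Tendsto (fun n : ℕ => (K : ℝ) / √((n - 1 : ℕ) : ℝ)) atTop (𝓝 0) := by
    apply Tendsto.const_div_atTop
    exact Real.tendsto_sqrt_atTop.comp (tendsto_natCast_atTop_atTop.comp (tendsto_sub_atTop_nat 1))
  have h3 := h2.eventually_lt_const (show (0 : ℝ) < ε / 3 by positivity)
  have h4 := tendsto_err.eventually_lt_const (show (0 : ℝ) < ε / 3 by positivity)
  obtain ⟨N, hN⟩ := eventually_atTop.mp ((h3.and h4).and (eventually_ge_atTop (2 * K)))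
  refine ⟨N, fun n hn m hm => ?_⟩
  obtain ⟨⟨h5, h6⟩, h7⟩ := hN n hn
  have h8 := p_near hK3 h7 hm
  linarith

end Pool.Agent.KS6_54.MO
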