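import Pool.Agent.KS6_54.MO.B

/-!
Minimal overlapping permutations with a prescribed first entry: symmetry of the limit function,
and the comparison of its values at `0` and `1 / 2`.
-/

set_option autoImplicit false

namespace Pool.Agent.KS6_54.MO

open Finset Filter Topology Pool.Agent.V11170.SemiBaxter Pool.Agent.V11170.Tools
open Pool.Agent.Results.MP_d8535d_co.ConstantLimit

/-! ### symmetry -/

theorem card_compl_le {n m K : ℕ} (hm : m < n) (hK : K ≤ n) :
    (C n m (GoodK n K)).card ≤ (C n (n - 1 - m) (GoodK n K)).card := by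
  classical
  have hex : ∀ (τ : Equiv.Perm (Fin n)) i, i < n →
      exP ((Fin.revPerm : Equiv.Perm (Fin n)) * τ) i = n - 1 - exP τ i := by
    intro τ i hi
    rw [exP_of_lt _ hi, exP_of_lt _ hi]
    show ((Fin.rev (τ ⟨i, hi⟩) : Fin n) : ℕ) = _
    rw [Fin.val_rev]
    omega
  have hlt : ∀ (τ : Equiv.Perm (Fin n)) i, i < n → exP τ i < n := by
    intro τ i hi
    rw [exP_of_lt _ hi]
    exact Fin.is_lt _
  apply card_le_card_of_injOn (fun τ => (Fin.revPerm : Equiv.Perm (Fin n)) * τ)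
  · intro τ hτ
    rw [mem_coe, mem_C] at hτ
    rw [mem_coe, mem_C]
    refine ⟨?_, fun k hk hkK ho => hτ.2 k hk hkK fun i j hi hj => ?_⟩
    · rw [hex τ 0 (by omega), hτ.1]
    · have h1 := ho j i hj hi
      rw [hex τ i (by omega), hex τ j (by omega), hex τ _ (by omega), hex τ _ (by omega)] at h1
      have l1 := hlt τ i (by omega)
      have l2 := hlt τ j (by omega)
      have l3 := hlt τ (n - k + i) (by omega)
      have l4 := hlt τ (n - k + j) (by omega)
      omega
  · intro τ _ τ' _ h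
    exact mul_left_cancel h

theorem g_symm {N j K : ℕ} (hj : j ≤ N) (hK : K ≤ N + 1) :
    g (N + 1) (N - j) K = g (N + 1) j K := by
  unfold g
  congr 2
  apply le_antisymm
  · have h := card_compl_le (n := N + 1) (m := N - j) (K := K) (by omega) hK
    rwa [show N + 1 - 1 - (N - j) = j by omega] at h
  · exact card_compl_le (n := N + 1) (m := j) (K := K) (by omega) hK

theorem bb_symm {N j : ℕ} (hj : j ≤ N) (x : ℝ) : bb N (N - j) (1 - x) = bb N j x := by
  unfold bb
  rw [Nat.choose_symm hj, show N - (N - j) = j by omega, sub_sub_cancel]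
  ring

theorem PK_symm {K : ℕ} (hK : 1 ≤ K) (x : ℝ) : PK K (1 - x) = PK K x := by
  unfold PK BP
  rw [← sum_range_reflect]
  apply sum_congr rfl
  intro j hj
  rw [mem_range] at hj
  rw [show 2 * K - 1 + 1 - 1 - j = 2 * K - 1 - j by omega, bb_symm (by omega),
    g_symm (by omega) (by omega)]

theorem LL_symm (x : ℝ) : LL (1 - x) = LL x := by
  unfold LL
  exact congrArg _ (funext fun K => PK_symm (by omega) x)

/-! ### the case of truncation at three -/

/-- Iterated insertion. -/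
def SS : ℕ → ((ℕ → ℕ) → ℕ) → ℕ
  | 0, F => F (fun _ => 0)
  | n + 1, F => SS n (fun W => ∑ v ∈ range (n + 1), F (ins n v W))

theorem sum_eq_SS (n : ℕ) : ∀ F : (ℕ → ℕ) → ℕ,
    ∑ τ : Equiv.Perm (Fin n), F (exP τ) = SS n F := by
  induction n with
  | zero =>
    intro F
    rw [Fintype.sum_unique]
    unfold SS
    congr 1
  | succ n ih =>
    intro F
    rw [sum_perm_succ, ih (fun W => ∑ v ∈ range (n + 1), F (ins n v W))]
    rfl

/-- The indicator of the permutations of length six with first letter `m` and without overlaps of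
length two and three. -/
def FF (m : ℕ) (W : ℕ → ℕ) : ℕ :=
  if W 0 = m ∧ ∀ k ∈ Icc (2 : ℕ) 3, ¬ ∀ i ∈ range k, ∀ j ∈ range k,
    (W i < W j ↔ W (6 - k + i) < W (6 - k + j)) then 1 else 0

theorem card_six (m : ℕ) : (C 6 m (GoodK 6 3)).card = SS 6 (FF m) := by
  rw [← sum_eq_SS]
  apply card_C
  intro W
  have h : (∀ k ∈ Icc (2 : ℕ) 3, ¬ ∀ i ∈ range k, ∀ j ∈ range k,
      (W i < W j ↔ W (6 - k + i) < W (6 - k + j))) ↔ GoodK 6 3 W := by
    unfold GoodK Ov
    constructor
    · intro h k hk hk3 ho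
      exact h k (mem_Icc.mpr ⟨hk, hk3⟩) fun i hi j hj => ho i j (mem_range.mp hi) (mem_range.mp hj)
    · intro h k hk ho
      rw [mem_Icc] at hk
      exact h k hk.1 hk.2 fun i j hi hj => ho i (mem_range.mpr hi) j (mem_range.mpr hj)
  unfold FF
  by_cases h1 : W 0 = m ∧ GoodK 6 3 W
  · left
    rw [if_pos ⟨h1.1, h.mpr h1.2⟩]
    exact ⟨rfl, h1⟩
  · right
    rw [if_neg fun h2 => h1 ⟨h2.1, h.mp h2.2⟩]
    exact ⟨rfl, h1⟩

theorem six0 : (C 6 0 (GoodK 6 3)).card = 50 := by rw [card_six]; decide +kernel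
theorem six1 : (C 6 1 (GoodK 6 3)).card = 46 := by rw [card_six]; decide +kernel
theorem six2 : (C 6 2 (GoodK 6 3)).card = 44 := by rw [card_six]; decide +kernel
theorem six3 : (C 6 3 (GoodK 6 3)).card = 44 := by rw [card_six]; decide +kernel
theorem six4 : (C 6 4 (GoodK 6 3)).card = 46 := by rw [card_six]; decide +kernel
theorem six5 : (C 6 5 (GoodK 6 3)).card = 50 := by rw [card_six]; decide +kernel

theorem g6_eq (j c : ℕ) (h : (C 6 j (GoodK 6 3)).card = c) : g 6 j 3 = c / 120 := by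
  unfold g
  have h1 : ((6 - 1 : ℕ).factorial : ℝ) = 120 := by
    have : (6 - 1 : ℕ).factorial = 120 := by decide
    rw [this]
    norm_num
  rw [h, h1]

theorem PK3_eq (x : ℝ) : PK 3 x = 50 / 120 * bb 5 0 x + 46 / 120 * bb 5 1 x + 44 / 120 * bb 5 2 x +
    44 / 120 * bb 5 3 x + 46 / 120 * bb 5 4 x + 50 / 120 * bb 5 5 x := by
  have h : PK 3 x = ∑ j ∈ range 6, g 6 j 3 * bb 5 j x := rfl
  rw [h]
  simp only [sum_range_succ, range_zero, sum_empty, zero_add]
  rw [g6_eq 0 50 six0, g6_eq 1 46 six1, g6_eq 2 44 six2, g6_eq 3 44 six3, g6_eq 4 46 six4,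
    g6_eq 5 50 six5]
  norm_num

theorem PK3_zero : PK 3 0 = 5 / 12 := by
  rw [PK3_eq]
  unfold bb
  norm_num [Nat.choose]

theorem PK3_half : PK 3 (1 / 2) = 3 / 8 := by
  rw [PK3_eq]
  unfold bb
  norm_num [Nat.choose]

theorem tsum_fac : ∑' k : ℕ, 1 / (k.factorial : ℝ) = Real.exp 1 := by
  rw [Real.exp_eq_exp_ℝ, NormedSpace.exp_eq_tsum_div]
  simp

theorem LL_half_lt : LL (1 / 2) < LL 0 := by
  have h1 := LL_le (K := 3) le_rfl (x := 1 / 2) (by norm_num) (by norm_num)
  have h2 := le_LL (K := 3) le_rfl (x := 0) le_rfl zero_le_one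
  rw [PK3_half] at h1
  rw [PK3_zero] at h2
  have h3 : TT 3 < 0.0259 := by
    unfold TT
    rw [tsum_fac]
    have := Real.exp_one_lt_d9
    norm_num [sum_range_succ, Nat.factorial]
    linarith
  norm_num at h1 h2 h3 ⊢
  linarith

end Pool.Agent.KS6_54.MO
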